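import Pool.Agent.Lib.PCG.Defs

/-!
# Configurations in the fibres of a family of curves: operators

As `PCG.Defs`, with further operators `b i` (from the base of the family) which commute with the
`s x` and normalise the group generated by the `a j`.
-/

namespace Pool.Agent.PCH

open Pool.Agent.Art Pool.Agent.PCF Pool.Agent.PCG

variable {K V J I : Type*} [Field K] [AddCommGroup V] [Module K V] [LinearOrder J]

/-- the operators from the base -/
structure BSys (m : ℤ) (s : ℤ → Module.End K V) (a : J → Module.End K V)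
    (b : I → Module.End K V) : Prop where
  comm : ∀ i, ∀ x ∈ Set.Icc 1 m, b i * s x = s x * b i
  inj : ∀ i, Function.Injective (b i)
  /-- `b i a j (b i)⁻¹` is in the group generated by the `a k` -/
  norm : ∀ i j, ∀ W : Submodule K V, (∀ k, ∀ w ∈ W, a k w ∈ W) → ∀ w, b i w ∈ W →
    b i (a j w) ∈ W

/-- irreducibility -/
def IrrB (m : ℤ) (s : ℤ → Module.End K V) (a : J → Module.End K V) (b : I → Module.End K V) :
    Prop :=
  ∀ W : Submodule K V, (∀ x ∈ Set.Icc 1 m, ∀ w ∈ W, s x w ∈ W) → (∀ j, ∀ w ∈ W, a j w ∈ W) →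
    (∀ i, ∀ w ∈ W, b i w ∈ W) → W = ⊥ ∨ W = ⊤

end Pool.Agent.PCH
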