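import Pool.Agent.Lib.PCH.Defs
import Pool.Agent.Lib.PCG.GT3

/-!
# Module H3 (variant of PCG.GT3 with operators `b i` from the base)

`F = pF s si a` is stable under `b i`: `F` is spanned by the `g (pC s si v)`, `g` a product of the
`a j`; `b i (pC s si v) = pC s si (b i v)` (`b i` commutes with `s 1`, `s 2`, so with `cE s 1` and
`si`), and if `b i w in F` then `b i (a j w) in F` (`BSys.norm` with `W = F`).
(M) as in GT3, for `U' <= F` stable under the `a j`, `A = s1 s1`, `pb k` and the `b i`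
(`b i (W y f) = W y (b i f)`). (S) `A` commutes with `a j`, `pb k`, `b i` on `F`: a scalar `τ`.
(O) as in GT3, and `b i (v y f) = v y (ga i f)`, `ga i = b i` restricted to `F`.
-/

namespace Pool.Agent.PCH

open Pool.Agent.Art Pool.Agent.PCF Pool.Agent.PCG

variable {K V J I : Type*} [Field K] [IsAlgClosed K] [AddCommGroup V] [Module K V]
  [FiniteDimensional K V] [LinearOrder J]

/-- the induced representation attached to `tau`, `al`, `be`, `ga` on `U` -/
structure HTOut (m : ℕ) (s : ℤ → Module.End K V) (a : J → Module.End K V)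
    (b : I → Module.End K V) (ξ η : J → J → K)
    {U : Type*} [AddCommGroup U] [Module K U] (τ : K) (al be : J → Module.End K U)
    (ga : I → Module.End K U) (v : ℕ → (U →ₗ[K] V)) : Prop where
  t0 : τ ≠ 0
  t1 : τ ≠ 1
  span : (⨆ y : Fin (m + 1), LinearMap.range (v y)) = ⊤
  indep : ∀ f : Fin (m + 1) → U, ∑ y : Fin (m + 1), v y (f y) = 0 → ∀ y, f y = 0
  irr : ∀ W : Submodule K U, (∀ j, ∀ w ∈ W, al j w ∈ W) → (∀ j, ∀ w ∈ W, be j w ∈ W) →
    (∀ i, ∀ w ∈ W, ga i w ∈ W) → W = ⊥ ∨ W = ⊤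
  alinj : ∀ j, Function.Injective (al j)
  beinj : ∀ j, Function.Injective (be j)
  gainj : ∀ i, Function.Injective (ga i)
  own : ∀ j w, al j (be j w) = be j (al j w)
  ab : ∀ i j, i < j → ∀ w, al i (be j w) = (ξ i j * τ + η i j) • be j (al i w)
  ba : ∀ i j, i < j → ∀ w, be i (al j w) = (ξ i j * τ + η i j) • al j (be i w)
  bb : ∀ i j, i < j → ∀ w, be i (be j w) = (ξ i j + η i j) • be j (be i w)
  s1 : ∀ x : ℕ, 1 ≤ x → x ≤ m → ∀ w, s x (v (x - 1) w) = v x w
  s2 : ∀ x : ℕ, 1 ≤ x → x ≤ m → ∀ w, s x (v x w) = τ • v (x - 1) w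
  s3 : ∀ x y : ℕ, 1 ≤ x → x ≤ m → y ≤ m → y ≠ x → y + 1 ≠ x → ∀ w, s x (v y w) = v y w
  a0 : ∀ j w, a j (v 0 w) = v 0 (al j w)
  a1 : ∀ j (y : ℕ), 1 ≤ y → y ≤ m → ∀ w, a j (v y w) = v y (be j w)
  bv : ∀ i (y : ℕ), y ≤ m → ∀ w, b i (v y w) = v y (ga i w)

section

omit [IsAlgClosed K] [FiniteDimensional K V]

variable {m : ℕ} {s : ℤ → Module.End K V} {si : Module.End K V}
  {a : J → Module.End K V} {b : I → Module.End K V} {ξ η : J → J → K}

theorem h3_comm (hb : BSys (m : ℤ) s a b) (i : I) {x : ℤ} (h1 : 1 ≤ x) (h2 : x ≤ m) (v : V) :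
    b i (s x v) = s x (b i v) :=
  LinearMap.congr_fun (hb.comm i x ⟨h1, h2⟩) v

/-- `b i` commutes with the translations -/
theorem h3_W (hb : BSys (m : ℤ) s a b) (i : I) : ∀ y : ℕ, y ≤ m → ∀ v,
    b i (gt3_W s y v) = gt3_W s y (b i v) := by
  intro y
  induction y with
  | zero => intro _ v; rfl
  | succ n ih =>
    intro hy v
    rw [gt3_W_succ, gt3_W_succ, h3_comm hb i (by omega) (by exact_mod_cast hy), ih (by omega)]

theorem h3_si (hm : 1 ≤ m) (hP : GSys (m : ℤ) s si a ξ η) (hb : BSys (m : ℤ) s a b) (i : I)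
    (v : V) : b i (si v) = si (b i v) := by
  have h1 : s 1 (si v) = v := LinearMap.congr_fun hP.inv1 v
  have h2 : si (s 1 (b i (si v))) = b i (si v) := LinearMap.congr_fun hP.inv2 (b i (si v))
  rw [← h2, ← h3_comm hb i le_rfl (by exact_mod_cast hm), h1]

theorem h3_cE (hm : 2 ≤ m) (hb : BSys (m : ℤ) s a b) (i : I) (v : V) :
    b i (cE s 1 v) = cE s 1 (b i v) := by
  have e1 : ∀ w, b i ((s 1 - 1) w) = (s 1 - 1) (b i w) := by
    intro w
    show b i (s 1 w - w) = s 1 (b i w) - b i w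
    rw [map_sub, h3_comm hb i le_rfl (by exact_mod_cast (by omega : 1 ≤ m))]
  have e2 : ∀ w, b i ((s (1 + 1) - 1) w) = (s (1 + 1) - 1) (b i w) := by
    intro w
    show b i (s (1 + 1) w - w) = s (1 + 1) (b i w) - b i w
    rw [map_sub, h3_comm hb i (by norm_num) (by norm_num; exact_mod_cast hm)]
  show b i ((s 1 - 1) v + (s 1 - 1) ((s 1 - 1) v) + (s 1 - 1) ((s (1 + 1) - 1) ((s 1 - 1) v))) =
    (s 1 - 1) (b i v) + (s 1 - 1) ((s 1 - 1) (b i v)) +
      (s 1 - 1) ((s (1 + 1) - 1) ((s 1 - 1) (b i v)))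
  rw [map_add, map_add, e1, e1, e1, e1, e2, e1]

theorem h3_C (hm : 2 ≤ m) (hP : GSys (m : ℤ) s si a ξ η) (hb : BSys (m : ℤ) s a b) (i : I)
    (v : V) : b i (pC s si v) = pC s si (b i v) := by
  show b i (si (cE s 1 (s 1 v))) = si (cE s 1 (s 1 (b i v)))
  rw [h3_si (by omega) hP hb, h3_cE hm hb,
    h3_comm hb i le_rfl (by exact_mod_cast (by omega : 1 ≤ m))]

theorem h3_mem_F {g : Module.End K V} (hg : g ∈ pM a) (v : V) : g (pC s si v) ∈ pF s si a :=
  (le_iSup (fun g : pM a => LinearMap.range ((g : Module.End K V) * pC s si)) ⟨g, hg⟩) ⟨v, rfl⟩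

/-- `F` is stable under the `b i` -/
theorem h3_F (hm : 2 ≤ m) (hP : GSys (m : ℤ) s si a ξ η) (hT : GTFacts (m : ℤ) s si a ξ η)
    (hb : BSys (m : ℤ) s a b) (i : I) : ∀ f ∈ pF s si a, b i f ∈ pF s si a := by
  have h1 : ∀ g ∈ pM a, ∀ v, b i (g (pC s si v)) ∈ pF s si a := by
    intro g hg
    induction hg using Submonoid.closure_induction_left with
    | one =>
      intro v
      show b i (pC s si v) ∈ pF s si a
      rw [h3_C hm hP hb]
      exact h3_mem_F (pM a).one_mem _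
    | mul_left x hx y hy ih =>
      obtain ⟨j, rfl⟩ := hx
      intro v
      exact hb.norm i j (pF s si a) (fun k w hw => hT.amem k w hw) _ (ih v)
  have h2 : pF s si a ≤ (pF s si a).comap (b i) := by
    refine iSup_le fun g => ?_
    rintro _ ⟨w, rfl⟩
    exact h1 g g.2 w
  exact fun f hf => h2 hf

end

section

omit [IsAlgClosed K]

variable {m : ℕ} {s : ℤ → Module.End K V} {si : Module.End K V} {a : J → Module.End K V}
  {b : I → Module.End K V} {ξ η : J → J → K}

/-- stability of the sum -/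
theorem h3_N_top (hm : 1 ≤ m) (hP : GSys (m : ℤ) s si a ξ η) (hT : GTFacts (m : ℤ) s si a ξ η)
    (hb : BSys (m : ℤ) s a b) (hirr : IrrB (m : ℤ) s a b) {U' : Submodule K V}
    (hU : U' ≤ pF s si a) (ha : ∀ j, ∀ u ∈ U', a j u ∈ U') (hA : ∀ u ∈ U', s 1 (s 1 u) ∈ U')
    (hpb : ∀ k, ∀ u ∈ U', pb s si a k u ∈ U') (hbU : ∀ i, ∀ u ∈ U', b i u ∈ U')
    (hne : U' ≠ ⊥) : gt3_N s m U' = ⊤ := by
  have hinj : Function.Injective (s 1) := hP.inj 1 ⟨le_rfl, by exact_mod_cast hm⟩
  have hside : ∀ j, ∀ u ∈ U', si (a j (s 1 u)) ∈ U' := by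
    intro j u hu
    have hinj2 : Function.Injective ((s 1 * s 1).restrict (p := U') (q := U') hA) := by
      intro p q hpq
      have h1 := congrArg Subtype.val hpq
      exact Subtype.ext (hinj (hinj h1))
    have hsur := LinearMap.injective_iff_surjective.1 hinj2
    obtain ⟨w, hw⟩ := hsur ⟨pb s si a j (s 1 (s 1 u)), hpb j _ (hA u hu)⟩
    have h1 : s 1 (s 1 (w : V)) = pb s si a j (s 1 (s 1 u)) := congrArg Subtype.val hw
    rw [← gt3_side hP] at h1
    have h2 := hinj (hinj h1)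
    rw [← h2]
    exact w.2
  have st1 : ∀ x ∈ Set.Icc (1 : ℤ) m, ∀ w ∈ gt3_N s m U', s x w ∈ gt3_N s m U' := by
    intro x hx
    obtain ⟨hx1, hx2⟩ := hx
    refine gt3_N_ind fun y hy u hu => ?_
    have hy' : (y : ℤ) ≤ m := by exact_mod_cast hy
    by_cases c1 : x = y
    · obtain ⟨n, rfl⟩ : ∃ n : ℕ, y = n + 1 := ⟨y - 1, by omega⟩
      subst c1
      have h1 := gt3_W_sq hP hT n (by push_cast at hy'; exact hy') u (hU hu)
      push_cast
      rw [h1]
      exact gt3_mem_N (by omega) (hA u hu)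
    · by_cases c2 : x = y + 1
      · subst c2
        rw [← gt3_W_succ]
        exact gt3_mem_N (by omega) hu
      · rw [gt3_W_fix hP hT (hU hu) y x hy' hx1 hx2 c1 c2]
        exact gt3_mem_N hy hu
  have st2 : ∀ j, ∀ w ∈ gt3_N s m U', a j w ∈ gt3_N s m U' := by
    intro j
    refine gt3_N_ind fun y hy u hu => ?_
    rcases Nat.eq_zero_or_pos y with rfl | h
    · exact gt3_mem_N (y := 0) (by omega) (ha j u hu)
    · obtain ⟨n, rfl⟩ : ∃ n : ℕ, y = n + 1 := ⟨y - 1, by omega⟩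
      rw [gt3_W_a hP j n (by exact_mod_cast hy)]
      exact gt3_mem_N hy (hside j u hu)
  have st3 : ∀ i, ∀ w ∈ gt3_N s m U', b i w ∈ gt3_N s m U' := by
    intro i
    refine gt3_N_ind fun y hy u hu => ?_
    rw [h3_W hb i y hy]
    exact gt3_mem_N hy (hbU i u hu)
  rcases hirr (gt3_N s m U') st1 st2 st3 with h | h
  · exfalso
    apply hne
    rw [eq_bot_iff]
    intro u hu
    have h1 : gt3_W s 0 u ∈ gt3_N s m U' := gt3_mem_N (by omega) hu
    rw [h] at h1
    exact h1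
  · exact h

/-- a nonzero stable subspace of `F` is `F` -/
theorem h3_F_min (hm : 1 ≤ m) (hP : GSys (m : ℤ) s si a ξ η) (hT : GTFacts (m : ℤ) s si a ξ η)
    (hb : BSys (m : ℤ) s a b) (hirr : IrrB (m : ℤ) s a b) {U' : Submodule K V}
    (hU : U' ≤ pF s si a) (ha : ∀ j, ∀ u ∈ U', a j u ∈ U') (hA : ∀ u ∈ U', s 1 (s 1 u) ∈ U')
    (hpb : ∀ k, ∀ u ∈ U', pb s si a k u ∈ U') (hbU : ∀ i, ∀ u ∈ U', b i u ∈ U')
    (hne : U' ≠ ⊥) : U' = pF s si a := by
  have htop := h3_N_top hm hP hT hb hirr hU ha hA hpb hbU hne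
  have hC0 : ∀ w, pC s si w ∈ U' := by
    intro w
    have hw : w ∈ gt3_N s m U' := by rw [htop]; exact Submodule.mem_top
    refine gt3_N_ind (fun y hy u hu => ?_) w hw
    rcases Nat.eq_zero_or_pos y with rfl | h
    · show pC s si u ∈ U'
      rw [hT.c0 u (hU hu)]
      exact U'.sub_mem (hA u hu) hu
    · obtain ⟨n, rfl⟩ : ∃ n : ℕ, y = n + 1 := ⟨y - 1, by omega⟩
      rw [gt3_C0_W hP hT (hU hu) n (by exact_mod_cast hy)]
      exact U'.zero_mem
  refine le_antisymm hU ?_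
  refine iSup_le fun g => ?_
  rintro _ ⟨w, rfl⟩
  show (g : Module.End K V) (pC s si w) ∈ U'
  have hg : ∀ g ∈ pM a, ∀ u ∈ U', g u ∈ U' := by
    intro g hg
    induction hg using Submonoid.closure_induction with
    | mem x hx =>
      obtain ⟨j, rfl⟩ := hx
      exact ha j
    | one => intro u hu; exact hu
    | mul x y _ _ hx hy => intro u hu; exact hx _ (hy u hu)
  exact hg g g.2 _ (hC0 w)

end

/-- an operator which commutes with everything is a scalar on `F` -/
theorem h3_F_scalar {m : ℕ} (hm : 2 ≤ m) {s : ℤ → Module.End K V} {si : Module.End K V}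
    {a : J → Module.End K V} {b : I → Module.End K V} {ξ η : J → J → K}
    (hP : GSys (m : ℤ) s si a ξ η) (hT : GTFacts (m : ℤ) s si a ξ η)
    (hb : BSys (m : ℤ) s a b) (hirr : IrrB (m : ℤ) s a b) (hne : pF s si a ≠ ⊥) (T : Module.End K V)
    (hT0 : ∀ f ∈ pF s si a, T f ∈ pF s si a)
    (ha : ∀ j, ∀ f ∈ pF s si a, T (a j f) = a j (T f))
    (hA : ∀ f ∈ pF s si a, T (s 1 (s 1 f)) = s 1 (s 1 (T f)))
    (hpb : ∀ k, ∀ f ∈ pF s si a, T (pb s si a k f) = pb s si a k (T f))
    (hbT : ∀ i, ∀ f ∈ pF s si a, T (b i f) = b i (T f)) :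
    ∃ t : K, ∀ f ∈ pF s si a, T f = t • f := by
  have hnt : Nontrivial (pF s si a) := Submodule.nontrivial_iff_ne_bot.2 hne
  obtain ⟨t, ht⟩ := Module.End.exists_eigenvalue (T.restrict hT0)
  obtain ⟨v, hv⟩ := ht.exists_hasEigenvector
  have h1 : T (v : V) = t • (v : V) := congrArg Subtype.val hv.apply_eq_smul
  have hv0 : (v : V) ≠ 0 := fun h => hv.2 (Subtype.ext h)
  let U' : Submodule K V :=
    { carrier := {f | f ∈ pF s si a ∧ T f = t • f}
      add_mem' := fun {p q} hp hq =>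
        ⟨(pF s si a).add_mem hp.1 hq.1, by rw [map_add, hp.2, hq.2, smul_add]⟩
      zero_mem' := ⟨(pF s si a).zero_mem, by rw [map_zero, smul_zero]⟩
      smul_mem' := fun c p hp => ⟨(pF s si a).smul_mem c hp.1, by rw [map_smul, hp.2, smul_comm]⟩ }
  have h2 : U' = pF s si a := by
    refine h3_F_min (by omega) hP hT hb hirr (fun f hf => hf.1) ?_ ?_ ?_ ?_ ?_
    · intro j u hu
      exact ⟨hT.amem j u hu.1, by rw [ha j u hu.1, hu.2, map_smul]⟩
    · intro u hu
      exact ⟨hT.smem u hu.1, by rw [hA u hu.1, hu.2, map_smul, map_smul]⟩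
    · intro k u hu
      exact ⟨hT.bmem k u hu.1, by rw [hpb k u hu.1, hu.2, map_smul]⟩
    · intro i u hu
      exact ⟨h3_F hm hP hT hb i u hu.1, by rw [hbT i u hu.1, hu.2, map_smul]⟩
    · intro h
      have h3 : (v : V) ∈ U' := ⟨v.2, h1⟩
      rw [h] at h3
      exact hv0 ((Submodule.mem_bot K).1 h3)
  refine ⟨t, fun f hf => ?_⟩
  rw [← h2] at hf
  exact hf.2

theorem ht_main {m : ℕ} (hm : 11 ≤ m) {s : ℤ → Module.End K V} {si : Module.End K V}
    {a : J → Module.End K V} {b : I → Module.End K V} {ξ η : J → J → K}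
    (hP : GSys (m : ℤ) s si a ξ η) (hF : FarZ (m : ℤ) s) (hT : GTFacts (m : ℤ) s si a ξ η)
    (hb : BSys (m : ℤ) s a b) (hirr : IrrB (m : ℤ) s a b) (hC : cE s 1 ≠ 0) :
    pF s si a ≠ ⊥ ∧ ∃ (τ : K) (al be : J → Module.End K (pF s si a))
      (ga : I → Module.End K (pF s si a)) (v : ℕ → (pF s si a →ₗ[K] V)),
      v 0 = (pF s si a).subtype ∧ HTOut m s a b ξ η τ al be ga v := by
  have hm1 : 1 ≤ m := by omega
  have hm2 : 2 ≤ m := by omega
  have hne := gt3_F_ne hP hC
  have hinj : Function.Injective (s 1) := hP.inj 1 ⟨le_rfl, by exact_mod_cast hm1⟩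
  have hsinj : Function.Injective si := by
    intro p q hpq
    have h1 := congrArg (s 1) hpq
    have h2 := LinearMap.congr_fun hP.inv1 p
    have h3 := LinearMap.congr_fun hP.inv1 q
    have h2' : s 1 (si p) = p := h2
    have h3' : s 1 (si q) = q := h3
    rw [← h2', h1, h3']
  have hbF : ∀ i, ∀ f ∈ pF s si a, b i f ∈ pF s si a := fun i => h3_F hm2 hP hT hb i
  have hbs : ∀ i v, b i (s 1 v) = s 1 (b i v) := fun i v =>
    h3_comm hb i le_rfl (by exact_mod_cast hm1) v
  obtain ⟨τ, hτ⟩ := h3_F_scalar hm2 hP hT hb hirr hne (s 1 * s 1) (fun f hf => hT.smem f hf)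
    (fun j f hf => hT.sa j f hf) (fun f hf => rfl) (fun k f hf => hT.sb k f hf)
    (fun i f _ => by
      show s 1 (s 1 (b i f)) = b i (s 1 (s 1 f))
      rw [hbs, hbs])
  have hτ' : ∀ f ∈ pF s si a, s 1 (s 1 f) = τ • f := hτ
  obtain ⟨f0, hf0, hf0n⟩ : ∃ f ∈ pF s si a, f ≠ 0 := Submodule.exists_mem_ne_zero_of_ne_bot hne
  have t0 : τ ≠ 0 := by
    rintro rfl
    have h1 := hτ' f0 hf0
    rw [zero_smul] at h1
    apply hf0n
    apply hinj
    apply hinj
    rw [h1, map_zero, map_zero]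
  have binj : ∀ j, Function.Injective (pb s si a j) := by
    intro j p q hpq
    exact hsinj (hP.ainj j (hinj hpq))
  have htop : gt3_N s m (pF s si a) = ⊤ := 
    h3_N_top hm1 hP hT hb hirr le_rfl hT.amem hT.smem hT.bmem hbF hne
  have t1 : τ ≠ 1 := by
    rintro rfl
    apply gt3_C_ne hP hC
    refine LinearMap.ext fun w => ?_
    have hw : w ∈ gt3_N s m (pF s si a) := by rw [htop]; exact Submodule.mem_top
    have h1 : pC s si w ∈ (⊥ : Submodule K V) := by
      refine gt3_N_ind (fun y hy u hu => ?_) w hw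
      rcases Nat.eq_zero_or_pos y with rfl | h
      · show pC s si u ∈ (⊥ : Submodule K V)
        rw [hT.c0 u hu, hτ' u hu, one_smul, sub_self]
        exact Submodule.zero_mem _
      · obtain ⟨n, rfl⟩ : ∃ n : ℕ, y = n + 1 := ⟨y - 1, by omega⟩
        rw [gt3_C0_W hP hT hu n (by exact_mod_cast hy)]
        exact Submodule.zero_mem _
    exact (Submodule.mem_bot K).1 h1
  have hside : ∀ j, ∀ f ∈ pF s si a, si (a j (s 1 f)) = pb s si a j f := by
    intro j f hf
    apply hinj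
    apply hinj
    rw [gt3_side hP, hτ' f hf, map_smul, hτ' _ (hT.bmem j f hf)]
  let al : J → Module.End K (pF s si a) := fun j => (a j).restrict (hT.amem j)
  let be : J → Module.End K (pF s si a) := fun j => (pb s si a j).restrict (hT.bmem j)
  let ga : I → Module.End K (pF s si a) := fun i => (b i).restrict (hbF i)
  let v : ℕ → (pF s si a →ₗ[K] V) := fun y => (gt3_W s y) ∘ₗ (pF s si a).subtype
  have hv : ∀ y w, v y w = gt3_W s y (w : V) := fun y w => rfl
  have s1 : ∀ x : ℕ, 1 ≤ x → x ≤ m → ∀ w, s x (v (x - 1) w) = v x w := by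
    intro x hx1 hx2 w
    obtain ⟨n, rfl⟩ : ∃ n : ℕ, x = n + 1 := ⟨x - 1, by omega⟩
    rw [hv, hv, gt3_W_succ, Nat.add_sub_cancel]
    push_cast
    rfl
  have s2 : ∀ x : ℕ, 1 ≤ x → x ≤ m → ∀ w, s x (v x w) = τ • v (x - 1) w := by
    intro x hx1 hx2 w
    obtain ⟨n, rfl⟩ : ∃ n : ℕ, x = n + 1 := ⟨x - 1, by omega⟩
    rw [hv, hv, Nat.add_sub_cancel]
    have h1 := gt3_W_sq hP hT n (by exact_mod_cast hx2) (w : V) w.2
    push_cast
    rw [h1, hτ' _ w.2, map_smul]
  have s3 : ∀ x y : ℕ, 1 ≤ x → x ≤ m → y ≤ m → y ≠ x → y + 1 ≠ x → ∀ w,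
      s x (v y w) = v y w := by
    intro x y hx1 hx2 hy h1 h2 w
    rw [hv]
    exact gt3_W_fix hP hT w.2 y x (by exact_mod_cast hy) (by exact_mod_cast hx1)
      (by exact_mod_cast hx2) (by intro h; apply h1; exact_mod_cast h.symm)
      (by intro h; apply h2; exact_mod_cast h.symm)
  refine ⟨hne, τ, al, be, ga, v, LinearMap.ext fun _ => rfl, ⟨t0, t1, ?_, ?_, ?_, ?_, ?_, ?_,
    ?_, ?_, ?_, ?_, s1, s2, s3, fun j w => rfl, ?_, ?_⟩⟩
  · -- span
    rw [← htop]
    unfold gt3_N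
    congr 1
    funext y
    show LinearMap.range ((gt3_W s y) ∘ₗ (pF s si a).subtype) = (pF s si a).map (gt3_W s y)
    rw [LinearMap.range_comp, Submodule.range_subtype]
  · -- independence
    have key : ∀ y : ℕ, y ≤ m → ∃ P : Module.End K V,
        (∀ w, P (v y w) = (τ ^ y * (τ - 1)) • (w : V)) ∧ ∀ z, z ≤ m → z ≠ y → ∀ w,
          P (v z w) = 0 := by
      intro y
      induction y with
      | zero =>
        intro _
        refine ⟨pC s si, ?_, ?_⟩
        · intro w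
          show pC s si (w : V) = _
          rw [hT.c0 _ w.2, hτ' _ w.2, pow_zero, one_mul, sub_smul, one_smul]
        · intro z hz hz0 w
          obtain ⟨n, rfl⟩ : ∃ n : ℕ, z = n + 1 := ⟨z - 1, by omega⟩
          exact gt3_C0_W hP hT w.2 n (by exact_mod_cast hz)
      | succ y ih =>
        intro hy
        obtain ⟨P, h1, h2⟩ := ih (by omega)
        refine ⟨P * s ((y + 1 : ℕ) : ℤ), ?_, ?_⟩
        · intro w
          show P (s ((y + 1 : ℕ) : ℤ) (v (y + 1) w)) = _
          rw [s2 (y + 1) (by omega) hy w, map_smul, Nat.add_sub_cancel, h1, smul_smul]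
          congr 1
          ring
        · intro z hz hzy w
          show P (s ((y + 1 : ℕ) : ℤ) (v z w)) = 0
          by_cases c1 : z = y
          · subst c1
            have h3 := s1 (z + 1) (by omega) hy w
            rw [Nat.add_sub_cancel] at h3
            rw [h3]
            exact h2 (z + 1) hy (by omega) w
          · rw [s3 (y + 1) z (by omega) hy hz hzy (by omega) w]
            exact h2 z hz c1 w
    intro f hf y
    obtain ⟨P, h1, h2⟩ := key y (by omega)
    have h3 := congrArg P hf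
    rw [map_zero, map_sum, Finset.sum_eq_single y] at h3
    · rw [h1] at h3
      rcases smul_eq_zero.1 h3 with h4 | h4
      · exfalso
        rcases mul_eq_zero.1 h4 with h5 | h5
        · exact pow_ne_zero _ t0 h5
        · exact t1 (sub_eq_zero.1 h5)
      · exact Subtype.ext h4
    · intro z _ hz
      exact h2 z (by omega) (fun h => hz (Fin.ext h)) _
    · intro h
      exact absurd (Finset.mem_univ y) h
  · -- irreducibility
    intro W hW hWb hWg
    by_cases hW0 : W = ⊥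
    · exact Or.inl hW0
    right
    have h1 : W.map (pF s si a).subtype = pF s si a := by
      refine h3_F_min hm1 hP hT hb hirr (Submodule.map_subtype_le _ _) ?_ ?_ ?_ ?_ ?_
      · rintro j _ ⟨w, hw, rfl⟩
        exact ⟨al j w, hW j w hw, rfl⟩
      · rintro _ ⟨w, hw, rfl⟩
        show s 1 (s 1 (w : V)) ∈ _
        rw [hτ' _ w.2]
        exact Submodule.smul_mem _ _ ⟨w, hw, rfl⟩
      · rintro k _ ⟨w, hw, rfl⟩
        exact ⟨be k w, hWb k w hw, rfl⟩
      · rintro i _ ⟨w, hw, rfl⟩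
        exact ⟨ga i w, hWg i w hw, rfl⟩
      · intro h
        apply hW0
        rw [eq_bot_iff]
        intro w hw
        have h3 : (w : V) ∈ W.map (pF s si a).subtype := ⟨w, hw, rfl⟩
        rw [h] at h3
        exact (Submodule.mem_bot K).2 (Subtype.ext ((Submodule.mem_bot K).1 h3))
    rw [eq_top_iff]
    rintro w -
    have h2 : (w : V) ∈ W.map (pF s si a).subtype := by rw [h1]; exact w.2
    obtain ⟨w', hw', e⟩ := h2
    have e' : w' = w := Subtype.ext e
    rw [← e']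
    exact hw'
  · -- injectivity
    intro j p q hpq
    have h1 := congrArg Subtype.val hpq
    exact Subtype.ext (hP.ainj j h1)
  · intro j p q hpq
    have h1 := congrArg Subtype.val hpq
    exact Subtype.ext (binj j h1)
  · intro i p q hpq
    have h1 := congrArg Subtype.val hpq
    exact Subtype.ext (hb.inj i h1)
  · intro j w
    exact Subtype.ext (hT.own j (w : V) w.2)
  · intro i j hij w
    apply Subtype.ext
    show a i (pb s si a j (w : V)) = (ξ i j * τ + η i j) • pb s si a j (a i (w : V))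
    rw [hT.ab i j hij _ w.2, hτ' _ (hT.bmem j _ (hT.amem i _ w.2)), add_smul, mul_smul]
  · intro i j hij w
    apply Subtype.ext
    show pb s si a i (a j (w : V)) = (ξ i j * τ + η i j) • a j (pb s si a i (w : V))
    rw [hT.ba i j hij _ w.2, hτ' _ (hT.amem j _ (hT.bmem i _ w.2)), add_smul, mul_smul]
  · intro i j hij w
    exact Subtype.ext (hT.bb i j hij (w : V) w.2)
  · intro j y hy1 hy2 w
    obtain ⟨n, rfl⟩ : ∃ n : ℕ, y = n + 1 := ⟨y - 1, by omega⟩
    rw [hv, gt3_W_a hP j n (by exact_mod_cast hy2), hside j _ w.2]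
    rfl
  · intro i y hy w
    rw [hv, h3_W hb i y hy]
    rfl

end Pool.Agent.PCH
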